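import Pool.Agent.H16.CX.Code

/-!
# The dichotomy for the points fixed by the permutations that fix the even numbers
-/

set_option autoImplicit false

open Set Topology Filter MeasureTheory

namespace Pool.Agent.H48.CXS

open Pool.Agent.H16.CX Pool.Agent.H72.UV

/-- extension of a permutation of the even numbers -/
noncomputable def dbl (h : Equiv.Perm ℕ) : Equiv.Perm ℕ :=
  (Equiv.natSumNatEquivNat.symm.trans (Equiv.sumCongr h (Equiv.refl ℕ))).trans
    Equiv.natSumNatEquivNat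

theorem dbl_even (h : Equiv.Perm ℕ) (i : ℕ) : dbl h (2 * i) = 2 * h i := by
  have h1 : Equiv.natSumNatEquivNat.symm (2 * i) = Sum.inl i := by
    rw [Equiv.symm_apply_eq]
    simp
  unfold dbl
  rw [Equiv.trans_apply, Equiv.trans_apply, h1]
  simp

theorem iso_symm {C : Type} {c d : Str ℕ C} (h : Iso c d) : Iso d c := by
  obtain ⟨g, hg⟩ := h
  refine ⟨g⁻¹, fun l => ?_⟩
  rw [← hg (l.map (g⁻¹ : Equiv.Perm ℕ)), List.map_map]
  have h1 : ((g : ℕ → ℕ) ∘ (g⁻¹ : Equiv.Perm ℕ)) = id := by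
    funext x
    simp
  rw [h1, List.map_id]

theorem iso_trans {C : Type} {c d e : Str ℕ C} (h : Iso c d) (h' : Iso d e) : Iso c e := by
  obtain ⟨g, hg⟩ := h
  obtain ⟨g', hg'⟩ := h'
  refine ⟨g' * g, fun l => ?_⟩
  rw [← hg l, ← hg' (l.map g), List.map_map]
  rfl

section
variable {X : Type} [MetricSpace X] (R : RS X)

theorem evEq_of_iso (hCOR : T_COR) {x0 z z' : X} (hz : z ∈ FE R) (hz' : z' ∈ FE R)
    {ρ : Str ℕ X → X} (hρ : ∀ z ∈ FE R, ρ (cz R x0 z) = z) (h : Iso (cz R x0 z) (cz R x0 z')) :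
    EvEq R z' z := by
  obtain ⟨g, hg⟩ := h
  obtain ⟨h1, h2⟩ := hCOR X R x0 z' hz' (dbl g) g (dbl_even g)
  refine ⟨dbl g, g, dbl_even g, ?_⟩
  have h3 : cz R x0 (R.res (pe (dbl g)) z') = cz R x0 z := funext fun l => by
    rw [← h2 l, hg l]
  have h4 := hρ _ h1
  rw [h3, hρ z hz] at h4
  exact h4.symm

theorem iso_of_evEq (hCOR : T_COR) {x0 z z' : X} (hz : z ∈ FE R) (h : EvEq R z z') :
    Iso (cz R x0 z') (cz R x0 z) := by
  obtain ⟨g, h, hgh, rfl⟩ := h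
  exact ⟨h, (hCOR X R x0 z hz g h hgh).2⟩

end

theorem pf_cod : T_COR → T_COM → T_COB → T_COD := by
  intro hCOR hCOM hCOB X _ _ _ _ R hS
  rcases (FE R).eq_empty_or_nonempty with hE | ⟨x0, hx0⟩
  · left
    refine ⟨∅, countable_empty, fun z hz => ?_⟩
    rw [hE] at hz
    exact absurd hz (notMem_empty z)
  have : SecondCountableTopology X := inferInstance
  have : PolishSpace X := inferInstance
  have : StandardBorelSpace X := inferInstance
  obtain ⟨A, hA, hYY⟩ := hCOM X R x0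
  obtain ⟨ρ, hρm, hρ⟩ := hCOB X R x0
  have hInv : Pool.Agent.H72.UV.Inv (YY R x0) := by
    rintro c ⟨z, hz, rfl⟩ h
    obtain ⟨h1, h2⟩ := hCOR X R x0 z hz (dbl h) h (dbl_even h)
    exact ⟨_, h1, funext h2⟩
  have hform : ∃ A : ℕ → ℕ → Set (Str ℕ X), (∀ n j, MeasurableSet (A n j) ∧ FinDep (A n j)) ∧
      YY R x0 = ⋃ n, ⋂ j, A n j := by
    refine ⟨fun _ j => A j, fun _ j => hA j, ?_⟩
    rw [iUnion_const, hYY]
  rcases hS X (YY R x0) hform hInv with ⟨D', hD', hc⟩ | ⟨f, hf, hfY, hne⟩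
  · left
    classical
    refine ⟨(fun d => if h : ∃ z ∈ FE R, Iso (cz R x0 z) d then h.choose else x0) '' D',
      hD'.image _, fun z hz => ?_⟩
    obtain ⟨d, hd, hiso⟩ := hc (cz R x0 z) ⟨z, hz, rfl⟩
    have h : ∃ z ∈ FE R, Iso (cz R x0 z) d := ⟨z, hz, hiso⟩
    refine ⟨_, ⟨d, hd, rfl⟩, ?_⟩
    simp only
    rw [dif_pos h]
    obtain ⟨h1, h2⟩ := h.choose_spec
    exact evEq_of_iso R hCOR h1 hz hρ (iso_trans h2 (iso_symm hiso))
  · right
    have hkey : ∀ s, ρ (f s) ∈ FE R ∧ cz R x0 (ρ (f s)) = f s := by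
      intro s
      obtain ⟨z, hz, hfz⟩ := hfY s
      rw [hfz, hρ z hz]
      exact ⟨hz, rfl⟩
    refine ⟨fun s => ρ (f s), hρm.comp hf, fun s => (hkey s).1, fun s t hst hev => ?_⟩
    have h1 := iso_of_evEq R hCOR (x0 := x0) (hkey s).1 hev
    rw [(hkey s).2, (hkey t).2] at h1
    exact hne t s (fun h => hst h.symm) h1

end Pool.Agent.H48.CXS
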