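import Pool.Agent.H16.CX.Basic

/-!
# Order indiscernible points
-/

set_option autoImplicit false

open Set Topology Filter

namespace Pool.Agent.H48.CXS

open Pool.Agent.H16.CX

section lims
variable {X : Type} [MetricSpace X] [CompactSpace X]

/-- limit along a nonprincipal ultrafilter -/
noncomputable def limU (x : ℕ → X) : X := ((hyperfilter ℕ).map x).lim

theorem tendsto_limU (x : ℕ → X) : Tendsto x (hyperfilter ℕ : Filter ℕ) (𝓝 (limU x)) :=
  ((hyperfilter ℕ).map x).le_nhds_lim

theorem limU_const (y : X) : limU (fun _ => y) = y :=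
  tendsto_nhds_unique (tendsto_limU fun _ => y) tendsto_const_nhds

theorem limU_map {f : X → X} (hf : Continuous f) (x : ℕ → X) :
    f (limU x) = limU (fun a => f (x a)) :=
  tendsto_nhds_unique ((hf.tendsto _).comp (tendsto_limU x)) (tendsto_limU _)

theorem limU_dist {x y : ℕ → X} {p : ℕ} {ε : ℝ} (h : ∀ a, p ≤ a → dist (x a) (y a) ≤ ε) :
    dist (limU x) (limU y) ≤ ε := by
  have h1 : Tendsto (fun a => dist (x a) (y a)) (hyperfilter ℕ : Filter ℕ)
      (𝓝 (dist (limU x) (limU y))) := (tendsto_limU x).dist (tendsto_limU y)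
  refine le_of_tendsto h1 ?_
  have h2 : ∀ᶠ a in atTop, dist (x a) (y a) ≤ ε := eventually_atTop.2 ⟨p, h⟩
  exact Nat.hyperfilter_le_atTop h2

theorem limU_mem {Z : Set X} (hZ : IsClosed Z) {x : ℕ → X} (h : ∀ a, x a ∈ Z) : limU x ∈ Z :=
  hZ.mem_of_tendsto (tendsto_limU x) (Eventually.of_forall h)

/-- iterated limits -/
noncomputable def It : ℕ → (List ℕ → X) → X
  | 0, F => F []
  | n + 1, F => limU fun a => It n fun l => F (a :: l)

/-- increasing lists with entries at least `p` -/
def Inc : ℕ → List ℕ → Prop
  | _, [] => True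
  | p, a :: l => p ≤ a ∧ Inc (a + 1) l

theorem It_dist (n : ℕ) : ∀ (p : ℕ) (F G : List ℕ → X) (ε : ℝ),
    (∀ l, Inc p l → l.length = n → dist (F l) (G l) ≤ ε) → dist (It n F) (It n G) ≤ ε := by
  induction n with
  | zero =>
    intro p F G ε h
    exact h [] trivial rfl
  | succ n ih =>
    intro p F G ε h
    refine limU_dist (p := p) fun a ha => ?_
    refine ih (a + 1) _ _ ε fun l hl hn => ?_
    exact h (a :: l) ⟨ha, hl⟩ (by rw [List.length_cons, hn])

theorem It_map (n : ℕ) {f : X → X} (hf : Continuous f) : ∀ F : List ℕ → X,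
    f (It n F) = It n (fun l => f (F l)) := by
  induction n with
  | zero =>
    intro F
    rfl
  | succ n ih =>
    intro F
    show f (limU _) = limU _
    rw [limU_map hf]
    congr 1
    funext a
    exact ih _

theorem It_mem (n : ℕ) {Z : Set X} (hZ : IsClosed Z) : ∀ F : List ℕ → X, (∀ l, F l ∈ Z) →
    It n F ∈ Z := by
  induction n with
  | zero =>
    intro F h
    exact h []
  | succ n ih =>
    intro F h
    exact limU_mem hZ fun a => ih _ fun l => h (a :: l)

theorem It_const (n : ℕ) (y : X) : It n (fun _ => y) = y := by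
  induction n with
  | zero => rfl
  | succ n ih =>
    show limU (fun _ => It n fun _ => y) = y
    rw [ih, limU_const]

theorem It_take (r n : ℕ) : ∀ G : List ℕ → X, It (n + r) (fun l => G (l.take n)) = It n G := by
  induction n with
  | zero =>
    intro G
    have h : (fun l : List ℕ => G (l.take 0)) = fun _ => G [] := by
      funext l
      rw [List.take_zero]
    rw [h, It_const]
    rfl
  | succ n ih =>
    intro G
    rw [show n + 1 + r = (n + r) + 1 by ring]
    show limU _ = limU _
    congr 1
    funext a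
    exact ih fun l => G (a :: l)

theorem It_erase (k : ℕ) : ∀ (m : ℕ) (G : List ℕ → X), k ≤ m →
    It (m + 1) (fun l => G (l.eraseIdx k)) = It m G := by
  induction k with
  | zero =>
    intro m G _
    show limU (fun a => It m fun l => G ((a :: l).eraseIdx 0)) = It m G
    have h : ∀ a, (It m fun l => G ((a :: l).eraseIdx 0)) = It m G := fun a => rfl
    rw [funext h, limU_const]
  | succ k ih =>
    intro m G hm
    obtain ⟨m', rfl⟩ : ∃ m', m = m' + 1 := ⟨m - 1, by omega⟩
    show limU _ = limU _
    congr 1
    funext a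
    exact ih m' (fun l => G (a :: l)) (by omega)

end lims

theorem Inc_ge {p : ℕ} : ∀ {l : List ℕ}, Inc p l → ∀ a ∈ l, p ≤ a := by
  intro l
  induction l generalizing p with
  | nil =>
    intro _ a ha
    simp at ha
  | cons b l ih =>
    rintro ⟨h1, h2⟩ a ha
    rcases List.mem_cons.1 ha with rfl | ha
    · exact h1
    · have := ih h2 a ha
      omega

theorem Inc_nodup {p : ℕ} : ∀ {l : List ℕ}, Inc p l → l.Nodup := by
  intro l
  induction l generalizing p with
  | nil =>
    intro _
    exact List.nodup_nil
  | cons b l ih =>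
    rintro ⟨h1, h2⟩
    rw [List.nodup_cons]
    refine ⟨fun hb => ?_, ih h2⟩
    have := Inc_ge h2 b hb
    omega

/-- the values of the injection of a list -/
def fl (l : List ℕ) (j : ℕ) : ℕ := if h : j < l.length then l[j] else l.sum + 1 + j

theorem fl_inj {l : List ℕ} (hl : l.Nodup) : Function.Injective (fl l) := by
  have h0 : ∀ j (h : j < l.length), l[j] ≤ l.sum := fun j h =>
    List.le_sum_of_mem (List.getElem_mem h)
  intro i j hij
  unfold fl at hij
  split_ifs at hij with h1 h2 h2
  · exact (hl.getElem_inj_iff).1 hij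
  · have := h0 i h1
    omega
  · have := h0 j h2
    omega
  · omega

open scoped Classical in
/-- the injection of a list -/
noncomputable def ee (l : List ℕ) : ℕ ↪ ℕ :=
  if h : l.Nodup then ⟨fl l, fl_inj h⟩ else Function.Embedding.refl ℕ

theorem ee_apply {l : List ℕ} (hl : l.Nodup) {j : ℕ} (hj : j < l.length) : ee l j = l[j] := by
  unfold ee
  rw [dif_pos hl]
  show fl l j = l[j]
  unfold fl
  rw [dif_pos hj]

/-- the map that fixes the numbers below `k` and adds `d` to the others -/
def TT (k d : ℕ) : ℕ ↪ ℕ :=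
  ⟨fun j => if j < k then j else j + d, fun i j h => by
    simp only at h
    split_ifs at h <;> omega⟩

theorem TT_apply (k d j : ℕ) : TT k d j = if j < k then j else j + d := rfl

theorem pf_ind : T_IND := by
  intro X _ _ R Z hZ hne hinv
  obtain ⟨z0, hz0⟩ := hne
  set F : List ℕ → X := fun l => R.res (ee l) z0 with hF
  have hFZ : ∀ l, F l ∈ Z := fun l => hinv (ee l) (fun i hi => absurd hi (Nat.not_lt_zero i)) z0 hz0
  set w : ℕ → X := fun n => It n F with hw
  have hwZ : ∀ n, w n ∈ Z := fun n => It_mem n hZ F hFZ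
  have hcau : ∀ ε > (0 : ℝ), ∃ N : ℕ, ∀ n, N ≤ n → ∀ r, dist (w (n + r)) (w n) ≤ ε := by
    intro ε hε
    obtain ⟨N, hN⟩ := R.unif ε hε
    refine ⟨N, fun n hn r => ?_⟩
    have h1 : w n = It (n + r) (fun l => F (l.take n)) := (It_take r n F).symm
    rw [h1]
    refine It_dist (n + r) 0 _ _ ε fun l hl hlen => ?_
    refine hN _ _ (fun i hi => ?_) z0
    have hnd := Inc_nodup hl
    have hnd' : (l.take n).Nodup := hnd.sublist (List.take_sublist n l)
    have hi1 : i < l.length := by omega
    have hi2 : i < (l.take n).length := by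
      rw [List.length_take]
      omega
    rw [ee_apply hnd hi1, ee_apply hnd' hi2, List.getElem_take]
  have hC : CauchySeq w := by
    rw [Metric.cauchySeq_iff']
    intro ε hε
    obtain ⟨N, hN⟩ := hcau (ε / 2) (by positivity)
    refine ⟨N, fun n hn => ?_⟩
    have := hN N le_rfl (n - N)
    rw [show N + (n - N) = n by omega] at this
    linarith
  obtain ⟨y, hy⟩ := cauchySeq_tendsto_of_complete hC
  have hyZ : y ∈ Z := hZ.mem_of_tendsto hy (Eventually.of_forall hwZ)
  have hskip : ∀ k, R.res (TT k 1) y = y := by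
    intro k
    have h1 : Tendsto (fun m => R.res (TT k 1) (w (m + 1))) atTop (𝓝 (R.res (TT k 1) y)) :=
      ((R.cont (TT k 1)).tendsto y).comp (hy.comp (tendsto_add_atTop_nat 1))
    have h2 : Tendsto (fun m => dist (R.res (TT k 1) (w (m + 1))) (w m)) atTop
        (𝓝 (dist (R.res (TT k 1) y) y)) := h1.dist hy
    refine eq_of_dist_eq_zero (le_antisymm (le_of_forall_pos_le_add fun ε hε => ?_) dist_nonneg)
    rw [zero_add]
    refine le_of_tendsto h2 ?_
    obtain ⟨N, hN⟩ := R.unif ε hε
    refine eventually_atTop.2 ⟨max N k, fun m hm => ?_⟩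
    have hmN : N ≤ m := le_trans (le_max_left _ _) hm
    have hmk : k ≤ m := le_trans (le_max_right _ _) hm
    have e1 : R.res (TT k 1) (w (m + 1)) = It (m + 1) (fun l => R.res (TT k 1) (F l)) :=
      It_map (m + 1) (R.cont _) F
    have e2 : w m = It (m + 1) (fun l => F (l.eraseIdx k)) := (It_erase k m F hmk).symm
    rw [e1, e2]
    refine It_dist (m + 1) 0 _ _ ε fun l hl hlen => ?_
    have hnd := Inc_nodup hl
    have hnd' : (l.eraseIdx k).Nodup := hnd.sublist (List.eraseIdx_sublist l k)
    have e3 : R.res (TT k 1) (F l) = R.res ((TT k 1).trans (ee l)) z0 := (R.comp _ _ _).symm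
    rw [e3]
    refine hN _ _ (fun i hi => ?_) z0
    have hlen' : (l.eraseIdx k).length = m := by
      rw [List.length_eraseIdx, if_pos (by omega)]
      omega
    have hi2 : i < (l.eraseIdx k).length := by omega
    rw [ee_apply hnd' hi2, Function.Embedding.trans_apply, TT_apply, List.getElem_eraseIdx]
    by_cases hik : i < k
    · rw [if_pos hik, dif_pos hik, ee_apply hnd (by omega : i < l.length)]
    · rw [if_neg hik, dif_neg hik, ee_apply hnd (by omega : i + 1 < l.length)]
  have hTT : ∀ k d, R.res (TT k d) y = y := by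
    intro k d
    induction d with
    | zero =>
      have h : TT k 0 = Function.Embedding.refl ℕ := by
        ext j
        rw [TT_apply, Function.Embedding.refl_apply]
        split_ifs <;> rfl
      rw [h, R.one]
    | succ d ih =>
      have h : TT k (d + 1) = (TT k d).trans (TT k 1) := by
        ext j
        rw [Function.Embedding.trans_apply, TT_apply, TT_apply, TT_apply]
        split_ifs <;> omega
      rw [h, R.comp, hskip, ih]
  refine ⟨y, hyZ, fun i hi => ?_⟩
  have hc : ∀ n : ℕ, ∃ c : ℕ ↪ ℕ, (∀ j ≤ n, c j = i j) ∧ (∀ j, n ≤ j → c j = i n + (j - n)) ∧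
      R.res c y = y := by
    intro n
    induction n with
    | zero =>
      refine ⟨TT 0 (i 0), fun j hj => ?_, fun j _ => ?_, hTT 0 _⟩
      · have : j = 0 := by omega
        subst this
        rw [TT_apply, if_neg (by omega)]
        omega
      · rw [TT_apply, if_neg (by omega)]
        omega
    | succ n ih =>
      obtain ⟨c, h1, h2, h3⟩ := ih
      have hlt : i n < i (n + 1) := hi (Nat.lt_succ_self n)
      refine ⟨(TT (n + 1) (i (n + 1) - i n - 1)).trans c, fun j hj => ?_, fun j hj => ?_, ?_⟩
      · rw [Function.Embedding.trans_apply, TT_apply]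
        rcases Nat.lt_or_ge j (n + 1) with h | h
        · rw [if_pos h, h1 j (by omega)]
        · have : j = n + 1 := by omega
          subst this
          rw [if_neg (by omega), h2 _ (by omega)]
          omega
      · rw [Function.Embedding.trans_apply, TT_apply, if_neg (by omega), h2 _ (by omega)]
        omega
      · rw [R.comp, h3, hTT]
  refine eq_of_dist_eq_zero (le_antisymm (le_of_forall_pos_le_add fun ε hε => ?_) dist_nonneg)
  rw [zero_add]
  obtain ⟨N, hN⟩ := R.unif ε hε
  obtain ⟨c, h1, -, h3⟩ := hc N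
  have := hN i c (fun j hj => (h1 j hj.le).symm) y
  rwa [h3] at this

end Pool.Agent.H48.CXS
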